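import Mathlib

set_option autoImplicit false

namespace Pool.Agent.H.MP_0ed2d6_al

open Polynomial

section QU
variable {K V : Type*} [Field K] [AddCommGroup V] [Module K V] [FiniteDimensional K V]

lemma eig_pow (z h g : Module.End K V) (hh : IsUnit h) (hg : IsUnit g) (zh : Commute z h)
    (zg : Commute z g) (e : h * g = z * g * h) (μ : K) (hμ : z.HasEigenvalue μ) :
    μ ^ (Module.finrank K V).factorial = 1 := by
  set E := z.eigenspace μ with hE
  have mp : ∀ f : Module.End K V, Commute z f → ∀ v ∈ E, f v ∈ E := by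
    intro f hf v hv
    rw [hE, Module.End.mem_eigenspace_iff] at hv ⊢
    have := congrArg (fun φ : Module.End K V => φ v) hf.eq
    simp only [Module.End.mul_apply] at this
    rw [this, hv, map_smul]
  have un : ∀ (f : Module.End K V) (hf : Commute z f), IsUnit f →
      LinearMap.det (f.restrict (mp f hf)) ≠ 0 := by
    intro f hf hu
    have hi : Function.Injective f := (Module.End.isUnit_iff f).1 hu |>.1
    have : IsUnit (f.restrict (mp f hf)) := by
      rw [LinearMap.isUnit_iff_ker_eq_bot, LinearMap.ker_eq_bot]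
      intro a b hab
      apply Subtype.ext
      apply hi
      simpa using congrArg Subtype.val hab
    exact (LinearMap.isUnit_det _ this).ne_zero
  have e2 : (h.restrict (mp h zh)) * (g.restrict (mp g zg)) =
      μ • ((g.restrict (mp g zg)) * (h.restrict (mp h zh))) := by
    ext v
    have h1 := congrArg (fun φ : Module.End K V => φ v) e
    simp only [Module.End.mul_apply] at h1
    have h2 : z (g (h v)) = μ • g (h v) :=
      Module.End.mem_eigenspace_iff.1 (mp g zg _ (mp h zh _ v.2))
    simp only [Module.End.mul_apply, LinearMap.smul_apply, LinearMap.restrict_coe_apply,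
      Submodule.coe_smul]
    rw [h1, h2]
  have e3 := congrArg LinearMap.det e2
  rw [LinearMap.det_smul, map_mul, map_mul] at e3
  have h4 : μ ^ Module.finrank K E = 1 := by
    have a := un h zh hh
    have b := un g zg hg
    apply mul_right_cancel₀ (mul_ne_zero b a)
    rw [← e3]; ring
  have h5 : 0 < Module.finrank K E := by
    rw [Module.finrank_pos_iff, Submodule.nontrivial_iff_ne_bot]
    exact hμ
  obtain ⟨c, hc⟩ := Nat.dvd_factorial h5 (Submodule.finrank_le E)
  rw [hc, pow_mul, h4, one_pow]

lemma quasi_unip [IsAlgClosed K] (z h g : Module.End K V) (hh : IsUnit h) (hg : IsUnit g)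
    (zh : Commute z h) (zg : Commute z g) (e : h * g = z * g * h) :
    IsNilpotent (z ^ (Module.finrank K V).factorial - 1) := by
  set N := (Module.finrank K V).factorial
  rw [Module.End.isNilpotent_iff_of_finite]
  intro v
  have hv : v ∈ ⨆ μ : K, z.maxGenEigenspace μ := by
    rw [Module.End.iSup_maxGenEigenspace_eq_top]; trivial
  induction hv using Submodule.iSup_induction' with
  | mem μ v hv =>
    by_cases h0 : v = 0
    · exact ⟨0, by simp [h0]⟩
    have hμ : z.HasEigenvalue μ := by
      rw [Module.End.mem_maxGenEigenspace] at hv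
      obtain ⟨k, hk⟩ := hv
      by_contra hne
      have hi : Function.Injective (z - μ • (1 : Module.End K V)) := by
        rw [← LinearMap.ker_eq_bot]
        rw [Module.End.hasEigenvalue_iff, not_not, Module.End.eigenspace_def] at hne
        exact hne
      have hi2 : Function.Injective ((z - μ • (1 : Module.End K V)) ^ k) := by
        rw [Module.End.coe_pow]; exact hi.iterate k
      exact h0 (hi2 (by rw [hk, map_zero]))
    have h1 := eig_pow z h g hh hg zh zg e μ hμ
    rw [Module.End.mem_maxGenEigenspace] at hv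
    obtain ⟨k, hk⟩ := hv
    have h2 : (X - C μ) ∣ (X ^ N - 1 : K[X]) := by
      rw [dvd_iff_isRoot]; simp [h1, N]
    obtain ⟨q, hq⟩ := h2
    refine ⟨k, ?_⟩
    have h3 : (z ^ N - 1) ^ k = aeval z (q ^ k) * (z - μ • (1 : Module.End K V)) ^ k := by
      have : (z ^ N - 1) ^ k = aeval z ((X ^ N - 1 : K[X]) ^ k) := by simp
      rw [this, hq, mul_pow, mul_comm, map_mul]
      simp [Algebra.algebraMap_eq_smul_one]
    rw [h3, Module.End.mul_apply, hk, map_zero]
  | zero => exact ⟨0, by simp⟩
  | add x y _ _ hx hy =>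
    obtain ⟨a, ha⟩ := hx
    obtain ⟨b, hb⟩ := hy
    refine ⟨a + b, ?_⟩
    rw [map_add, Module.End.pow_map_zero_of_le (Nat.le_add_right a b) ha,
      Module.End.pow_map_zero_of_le (Nat.le_add_left b a) hb, add_zero]

lemma cube (h3 : Module.finrank K V = 3) (f : Module.End K V) (hf : IsNilpotent f) :
    f * f * f = 0 := by
  have := LinearMap.aeval_self_charpoly f
  rw [hf.charpoly_eq_X_pow_finrank, h3] at this
  simpa [pow_succ] using this

/-- truncated logarithm, doubled -/
def lg {M : Type*} [Ring M] (u : M) : M := 2 * (u - 1) - (u - 1) * (u - 1)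

lemma lg_mul [CharZero K] (h3 : Module.finrank K V = 3) (u w : Module.End K V)
    (hu : IsNilpotent (u - 1)) (hw : IsNilpotent (w - 1)) (c : Commute u w) :
    lg (u * w) = lg u + lg w := by
  obtain ⟨a, rfl⟩ : ∃ a, u = 1 + a := ⟨u - 1, by abel⟩
  obtain ⟨b, rfl⟩ : ∃ b, w = 1 + b := ⟨w - 1, by abel⟩
  simp only [add_sub_cancel_left] at hu hw
  have cab : Commute a b := by
    have := c.eq
    have e : a * b = b * a := by
      have h1 : (1 + a) * (1 + b) = 1 + a + b + a * b := by noncomm_ring
      have h2 : (1 + b) * (1 + a) = 1 + a + b + b * a := by noncomm_ring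
      rw [h1, h2] at this
      exact add_left_cancel this
    exact e
  have e : b * a = a * b := cab.eq.symm
  have e' : ∀ x, b * (a * x) = a * (b * x) := fun x => by rw [← mul_assoc, e, mul_assoc]
  have ha := cube h3 a hu
  have hb := cube h3 b hw
  have h1 := cube h3 (a + b) (cab.isNilpotent_add hu hw)
  have h2 := cube h3 (a - b) (cab.isNilpotent_sub hu hw)
  have h1' : (a + b) * (a + b) * (a + b) =
      a * a * a + b * b * b + (3 : K) • (a * (a * b)) + (3 : K) • (a * (b * b)) := by
    have t3 : ∀ x : Module.End K V, (3 : K) • x = x + x + x := fun x => by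
      rw [show (3 : K) = 1 + 1 + 1 by norm_num, add_smul, add_smul, one_smul]
    simp only [t3, mul_add, add_mul, mul_assoc, e, e']
    abel
  have h2' : (a - b) * (a - b) * (a - b) =
      a * a * a - b * b * b - (3 : K) • (a * (a * b)) + (3 : K) • (a * (b * b)) := by
    have t3 : ∀ x : Module.End K V, (3 : K) • x = x + x + x := fun x => by
      rw [show (3 : K) = 1 + 1 + 1 by norm_num, add_smul, add_smul, one_smul]
    simp only [t3, mul_sub, sub_mul, mul_assoc, e, e']
    abel
  rw [h1', ha, hb] at h1
  rw [h2', ha, hb] at h2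
  have k1 : a * (b * b) = 0 := by
    have : (6 : K) • (a * (b * b)) = 0 := by
      have h6 : (6 : K) • (a * (b * b)) = (3 : K) • (a * (b * b)) + (3 : K) • (a * (b * b)) := by
        rw [← add_smul]; norm_num
      rw [h6]
      have := congrArg₂ (· + ·) h1 h2
      simp only [add_zero] at this
      rw [← this]; abel
    exact (smul_eq_zero.1 this).resolve_left (by norm_num)
  have k2 : a * (a * b) = 0 := by
    rw [k1] at h1
    simp only [smul_zero, add_zero, zero_add] at h1
    exact (smul_eq_zero.1 h1).resolve_left (by norm_num)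
  have ex : (1 + a) * (1 + b) - 1 = a + b + a * b := by noncomm_ring
  unfold lg
  rw [ex]
  simp only [add_sub_cancel_left, two_mul, mul_add, add_mul, mul_assoc, e, e', k1, k2, mul_zero]
  abel

lemma lg_eq_zero [CharZero K] (h3 : Module.finrank K V = 3) (u : Module.End K V)
    (hu : IsNilpotent (u - 1)) (h : lg u = 0) : u = 1 := by
  have hc := cube h3 _ hu
  unfold lg at h
  set a := u - 1 with ha
  have h1 : a * a = 2 * a := (sub_eq_zero.1 h).symm
  have h2 : a * a * a = (4 : K) • a := by
    rw [h1, mul_assoc, h1, show (4 : K) = 1 + 1 + 1 + 1 by norm_num]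
    simp only [add_smul, one_smul, two_mul]; abel
  rw [h2] at hc
  have := (smul_eq_zero.1 hc).resolve_left (by norm_num)
  exact sub_eq_zero.1 this

end QU

section LRS
variable {K M : Type*} [Field K] [Ring M] [Algebra K M]

/-- the shift operator -/
def sh (K M : Type*) [Field K] [Ring M] [Algebra K M] : (ℤ → M) →ₐ[K] (ℤ → M) where
  toFun f := fun k => f (k + 1)
  map_one' := rfl
  map_mul' _ _ := rfl
  map_zero' := rfl
  map_add' _ _ := rfl
  commutes' _ := rfl

/-- linear recurrent two-sided sequences -/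
def LRS (K : Type*) {M : Type*} [Field K] [Ring M] [Algebra K M] (s : ℤ → M) : Prop :=
  ∃ W : Submodule K (ℤ → M), W.FG ∧ s ∈ W ∧ ∀ f ∈ W, sh K M f ∈ W

lemma LRS.add {s t : ℤ → M} (hs : LRS K s) (ht : LRS K t) : LRS K (s + t) := by
  obtain ⟨W, a, b, c⟩ := hs
  obtain ⟨W', a', b', c'⟩ := ht
  refine ⟨W ⊔ W', a.sup a', Submodule.add_mem_sup b b', fun f hf => ?_⟩
  obtain ⟨x, hx, y, hy, rfl⟩ := Submodule.mem_sup.1 hf
  rw [map_add]
  exact Submodule.add_mem_sup (c x hx) (c' y hy)

lemma LRS.neg {s : ℤ → M} (hs : LRS K s) : LRS K (-s) := by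
  obtain ⟨W, a, b, c⟩ := hs
  exact ⟨W, a, W.neg_mem b, c⟩

lemma LRS.sub {s t : ℤ → M} (hs : LRS K s) (ht : LRS K t) : LRS K (s - t) := by
  rw [sub_eq_add_neg]; exact hs.add ht.neg

lemma LRS.mul {s t : ℤ → M} (hs : LRS K s) (ht : LRS K t) : LRS K (s * t) := by
  obtain ⟨W, a, b, c⟩ := hs
  obtain ⟨W', a', b', c'⟩ := ht
  refine ⟨W * W', a.mul a', Submodule.mul_mem_mul b b', fun f hf => ?_⟩
  induction hf using Submodule.mul_induction_on' with
  | mem_mul_mem x hx y hy => rw [map_mul]; exact Submodule.mul_mem_mul (c x hx) (c' y hy)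
  | add x _ y _ hx hy => rw [map_add]; exact Submodule.add_mem _ hx hy

lemma LRS.const (m : M) : LRS K (fun _ : ℤ => m) := by
  refine ⟨Submodule.span K {fun _ => m}, Submodule.fg_span_singleton _,
    Submodule.mem_span_singleton_self _, fun f hf => ?_⟩
  obtain ⟨c, rfl⟩ := Submodule.mem_span_singleton.1 hf
  exact Submodule.mem_span_singleton.2 ⟨c, rfl⟩

lemma LRS.zpow [Module.Finite K M] (a : Mˣ) : LRS K (fun k : ℤ => ((a ^ k : Mˣ) : M)) := by
  let φ : M →ₗ[K] (ℤ → M) :=
    { toFun := fun m k => ((a ^ k : Mˣ) : M) * m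
      map_add' := fun x y => by funext k; simp [mul_add]
      map_smul' := fun c x => by funext k; simp }
  refine ⟨LinearMap.range φ, ?_, ⟨1, by funext k; simp [φ]⟩, ?_⟩
  · rw [LinearMap.range_eq_map]
    exact Submodule.FG.map _ Module.Finite.fg_top
  · rintro f ⟨m, rfl⟩
    refine ⟨a * m, ?_⟩
    funext k
    show ((a ^ k : Mˣ) : M) * (a * m) = ((a ^ (k + 1) : Mˣ) : M) * m
    rw [zpow_add_one, Units.val_mul, mul_assoc]

lemma LRS.exists_poly [Algebra ℚ K] [Algebra.IsIntegral ℚ K] {s : ℤ → M} (hs : LRS K s) :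
    ∃ f : ℤ[X], f ≠ 0 ∧ aeval (sh K M).toLinearMap f s = 0 := by
  obtain ⟨W, a, b, c⟩ := hs
  have : Module.Finite K W := Module.Finite.iff_fg.2 a
  let S : Module.End K W := (sh K M).toLinearMap.restrict c
  let p := LinearMap.charpoly S
  have hp : p.Monic := LinearMap.charpoly_monic S
  have := hp.finite_adjoinRoot
  have h1 : IsIntegral K (AdjoinRoot.root p) := IsIntegral.of_finite K _
  have h2 : IsIntegral ℚ (AdjoinRoot.root p) := isIntegral_trans _ h1
  obtain ⟨q, hq, hq0⟩ := h2
  let f := IsLocalization.integerNormalization (nonZeroDivisors ℤ) q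
  have hf : f ≠ 0 := fun h => hq.ne_zero (IsFractionRing.integerNormalization_eq_zero_iff.1 h)
  have hf0 : aeval (AdjoinRoot.root p) f = 0 :=
    IsLocalization.integerNormalization_aeval_eq_zero (nonZeroDivisors ℤ) q hq0
  refine ⟨f, hf, ?_⟩
  have h3 : p ∣ f.map (algebraMap ℤ K) := by
    rw [← AdjoinRoot.mk_eq_zero, ← AdjoinRoot.aeval_eq, aeval_map_algebraMap, hf0]
  obtain ⟨r, hr⟩ := h3
  have h4 : aeval S f = 0 := by
    rw [← aeval_map_algebraMap K, hr, map_mul, LinearMap.aeval_self_charpoly, zero_mul]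
  have h5 : ∀ (g : ℤ[X]) (v : W), ((aeval S g v : W) : ℤ → M) =
      aeval (sh K M).toLinearMap g (v : ℤ → M) := by
    intro g v
    induction g using Polynomial.induction_on' with
    | add p q hp hq => simp [hp, hq]
    | monomial n a =>
      simp only [aeval_monomial, Module.End.mul_apply, eq_intCast, Module.End.intCast_apply,
        Submodule.coe_smul_of_tower]
      congr 1
      induction n with
      | zero => rfl
      | succ n ih =>
        rw [pow_succ', pow_succ', Module.End.mul_apply, Module.End.mul_apply, ← ih]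
        rfl
  have := h5 f ⟨s, b⟩
  rw [h4] at this
  exact this.symm

end LRS

end Pool.Agent.H.MP_0ed2d6_al
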