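import Mathlib

set_option autoImplicit false

namespace Pool.Agent.H.MP_0ed2d6_al

open Polynomial

/-- upper triangular matrices with diagonal `1, d, 1` -/
@[ext] structure U where
  d : ℂˣ
  x : ℂ
  y : ℂ
  z : ℂ

noncomputable instance : Mul U :=
  ⟨fun a b => ⟨a.d * b.d, b.x + a.x * b.d, a.d * b.y + a.y, b.z + a.x * b.y + a.z⟩⟩
instance : One U := ⟨⟨1, 0, 0, 0⟩⟩
noncomputable instance : Inv U :=
  ⟨fun a => ⟨a.d⁻¹, -a.x * (a.d⁻¹ : ℂˣ), -(a.d⁻¹ : ℂˣ) * a.y, -a.z + a.x * (a.d⁻¹ : ℂˣ) * a.y⟩⟩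

@[simp] lemma mul_d (a b : U) : (a * b).d = a.d * b.d := rfl
@[simp] lemma mul_x (a b : U) : (a * b).x = b.x + a.x * b.d := rfl
@[simp] lemma mul_y (a b : U) : (a * b).y = a.d * b.y + a.y := rfl
@[simp] lemma mul_z (a b : U) : (a * b).z = b.z + a.x * b.y + a.z := rfl
@[simp] lemma one_d : (1 : U).d = 1 := rfl
@[simp] lemma one_x : (1 : U).x = 0 := rfl
@[simp] lemma one_y : (1 : U).y = 0 := rfl
@[simp] lemma one_z : (1 : U).z = 0 := rfl
@[simp] lemma inv_d (a : U) : a⁻¹.d = a.d⁻¹ := rfl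
@[simp] lemma inv_x (a : U) : a⁻¹.x = -a.x * (a.d⁻¹ : ℂˣ) := rfl
@[simp] lemma inv_y (a : U) : a⁻¹.y = -(a.d⁻¹ : ℂˣ) * a.y := rfl
@[simp] lemma inv_z (a : U) : a⁻¹.z = -a.z + a.x * (a.d⁻¹ : ℂˣ) * a.y := rfl

noncomputable instance : Group U where
  mul_assoc a b c := by
    ext <;> simp <;> ring
  one_mul a := by ext <;> simp
  mul_one a := by ext <;> simp
  inv_mul_cancel a := by
    ext <;> simp
    ring

/-- the matrix of an element -/
noncomputable def mat : U →* Matrix (Fin 3) (Fin 3) ℂ where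
  toFun a := !![1, a.x, a.z; 0, a.d, a.y; 0, 0, 1]
  map_one' := by
    ext i j; fin_cases i <;> fin_cases j <;> simp
  map_mul' a b := by
    ext i j; fin_cases i <;> fin_cases j <;> simp [Matrix.mul_apply, Fin.sum_univ_three]

noncomputable def rho : U →* Matrix.GeneralLinearGroup (Fin 3) ℂ := mat.toHomUnits

lemma rho_inj : Function.Injective rho := by
  intro a b h
  have h1 : mat a = mat b := congrArg Units.val h
  have e := fun i j => congrFun (congrFun h1 i) j
  ext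
  · simpa [mat] using e 1 1
  · simpa [mat] using e 0 1
  · simpa [mat] using e 1 2
  · simpa [mat] using e 0 2

/-- the determinant -/
noncomputable def dd : U →* ℂˣ where
  toFun a := a.d
  map_one' := rfl
  map_mul' _ _ := rfl

noncomputable def DD : ℂˣ →* U where
  toFun d := ⟨d, 0, 0, 0⟩
  map_one' := rfl
  map_mul' a b := by ext <;> simp

lemma unip_pow (a : U) (h : a.d = 1) (n : ℕ) :
    (a ^ n).d = 1 ∧ (a ^ n).x = n * a.x ∧ (a ^ n).y = n * a.y ∧
      (a.x = 0 → (a ^ n).z = n * a.z) := by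
  induction n with
  | zero => simp
  | succ n ih =>
    obtain ⟨h1, h2, h3, h4⟩ := ih
    rw [pow_succ]
    refine ⟨by simp [h, h1], by simp [h, h2]; ring, by simp [h1, h3]; ring, fun h0 => ?_⟩
    simp [h2, h0, h4 h0]; ring

lemma unip_tf (a : U) (h : a.d = 1) (ho : IsOfFinOrder a) : a = 1 := by
  obtain ⟨n, hn, e⟩ := isOfFinOrder_iff_pow_eq_one.1 ho
  obtain ⟨-, h2, h3, h4⟩ := unip_pow a h n
  rw [e] at h2 h3 h4
  have hn' : (n : ℂ) ≠ 0 := by exact_mod_cast hn.ne'
  have hx : a.x = 0 := by simpa [hn'] using h2.symm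
  have hy : a.y = 0 := by simpa [hn'] using h3.symm
  have hz : a.z = 0 := by simpa [hn'] using (h4 hx).symm
  ext <;> simp [h, hx, hy, hz]

variable (t : ℂˣ)

/-- Laurent polynomials in `t` -/
def A : Subring ℂ := Subring.closure (Set.range fun k : ℤ => ((t ^ k : ℂˣ) : ℂ))

def tA (k : ℤ) : A t := ⟨((t ^ k : ℂˣ) : ℂ), Subring.subset_closure ⟨k, rfl⟩⟩

lemma tA_coe (k : ℤ) : ((tA t k : A t) : ℂ) = ((t ^ k : ℂˣ) : ℂ) := rfl

lemma tA_add (k l : ℤ) : tA t (k + l) = tA t k * tA t l :=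
  Subtype.ext (by simp only [tA_coe, zpow_add, Units.val_mul, Subring.coe_mul])

lemma tA_zero : tA t 0 = 1 := Subtype.ext (by simp [tA_coe])

lemma tA_nat (k : ℤ) (n : ℕ) : tA t (n * k) = tA t k ^ n := by
  induction n with
  | zero => simp [tA_zero]
  | succ n ih => rw [pow_succ, ← ih, ← tA_add]; congr 1; push_cast; ring

lemma A_ind (P : A t → Prop) (h0 : P 0) (hadd : ∀ a b, P a → P b → P (a + b))
    (hneg : ∀ a, P a → P (-a)) (hk : ∀ k, P (tA t k)) (a : A t) : P a := by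
  have key : ∀ x ∈ AddSubgroup.closure
      (Submonoid.closure (Set.range fun k : ℤ => ((t ^ k : ℂˣ) : ℂ)) : Set ℂ),
      ∃ h : x ∈ A t, P ⟨x, h⟩ := by
    intro x hx
    induction hx using AddSubgroup.closure_induction with
    | mem x hx =>
      have : ∃ k : ℤ, x = ((t ^ k : ℂˣ) : ℂ) := by
        induction hx using Submonoid.closure_induction with
        | mem x hx => obtain ⟨k, rfl⟩ := hx; exact ⟨k, rfl⟩
        | one => exact ⟨0, by simp⟩
        | mul x y _ _ hx hy =>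
          obtain ⟨k, rfl⟩ := hx
          obtain ⟨l, rfl⟩ := hy
          exact ⟨k + l, by rw [zpow_add, Units.val_mul]⟩
      obtain ⟨k, rfl⟩ := this
      exact ⟨(tA t k).2, hk k⟩
    | zero => exact ⟨(A t).zero_mem, h0⟩
    | add x y _ _ hx hy =>
      obtain ⟨a, ha⟩ := hx
      obtain ⟨b, hb⟩ := hy
      exact ⟨(A t).add_mem a b, hadd _ _ ha hb⟩
    | neg x _ hx =>
      obtain ⟨a, ha⟩ := hx
      exact ⟨(A t).neg_mem a, hneg _ ha⟩
  obtain ⟨_, h⟩ := key a.1 (Subring.mem_closure_iff.1 a.2)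
  exact h

lemma A_ind5 (P : A t → Prop) (h0 : P 0) (hadd : ∀ a b, P a → P b → P (a + b))
    (hneg : ∀ a, P a → P (-a)) (hk : ∀ (k : ℤ) (i : Fin 5), P (tA t (5 * k) * tA t (i : ℕ)))
    (a : A t) : P a := by
  refine A_ind t P h0 hadd hneg (fun m => ?_) a
  have h1 : 0 ≤ m % 5 := Int.emod_nonneg _ (by norm_num)
  have h2 : m % 5 < 5 := Int.emod_lt_of_pos _ (by norm_num)
  have := hk (m / 5) ⟨(m % 5).toNat, by omega⟩
  rw [← tA_add] at this
  convert this using 2
  simp only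
  omega

lemma A_rep (a : A t) : ∃ (P : ℤ[X]) (m : ℕ), a * tA t 1 ^ m = aeval (tA t 1) P := by
  induction a using A_ind with
  | h0 => exact ⟨0, 0, by simp⟩
  | hadd a b ha hb =>
    obtain ⟨P, m, h⟩ := ha
    obtain ⟨Q, n, h'⟩ := hb
    refine ⟨P * X ^ n + Q * X ^ m, m + n, ?_⟩
    simp only [map_add, map_mul, map_pow, aeval_X, ← h, ← h']
    ring
  | hneg a ha =>
    obtain ⟨P, m, h⟩ := ha
    exact ⟨-P, m, by simp [← h]⟩
  | hk k =>
    refine ⟨X ^ k.toNat, (-k).toNat, ?_⟩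
    simp only [map_pow, aeval_X, ← tA_nat, ← tA_add]
    congr 1
    omega

noncomputable def fP (R : Type*) [CommRing R] : R[X] := X ^ 4 + X ^ 3 + X ^ 2 + X + 1
noncomputable def uP (R : Type*) [CommRing R] : R[X] := X + 1

noncomputable def fA : A t := aeval (tA t 1) (fP ℤ)
noncomputable def uA : A t := aeval (tA t 1) (uP ℤ)

lemma tau (k : ℤ) : ∃ q : A t, tA t (5 * k) = 1 + fA t * q := by
  have h5 : tA t 5 = 1 + fA t * (tA t 1 - 1) := by
    have := tA_nat t 1 5
    simp only [Nat.cast_ofNat, mul_one] at this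
    rw [this]; simp [fA, fP]; ring
  induction k using Int.induction_on with
  | zero => exact ⟨0, by simp [tA_zero]⟩
  | succ k ih =>
    obtain ⟨q, hq⟩ := ih
    refine ⟨q + (tA t 1 - 1) + fA t * q * (tA t 1 - 1), ?_⟩
    rw [mul_add, tA_add, hq, mul_one, h5]; ring
  | pred k ih =>
    obtain ⟨q, hq⟩ := ih
    refine ⟨q - tA t (5 * (-(k : ℤ) - 1)) * (tA t 1 - 1), ?_⟩
    have : tA t (5 * (-(k : ℤ))) = tA t (5 * (-(k : ℤ) - 1)) * tA t 5 := by
      rw [← tA_add]; congr 1; ring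
    rw [h5, hq] at this
    linear_combination (-1 : A t) * this

lemma bez : fA t - uA t * (tA t 1 ^ 3 + tA t 1) = 1 := by
  simp [fA, uA, fP, uP]; ring

noncomputable def eP (k : ℤ) (p y w : A t) : U := ⟨t ^ (5 * k), (fA t * p : A t), y, w⟩
noncomputable def eM (k : ℤ) (p y w : A t) : U :=
  ⟨-t ^ (5 * k), (uA t + fA t * p : A t), y, 1 / 2 + w⟩

lemma neg_inv' (a : ℂˣ) : (-a)⁻¹ = -a⁻¹ := by simp

/-- the group -/
def HH : Subgroup U where
  carrier := {g | ∃ (k : ℤ) (p y w : A t), g = eP t k p y w ∨ g = eM t k p y w}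
  one_mem' := ⟨0, 0, 0, 0, Or.inl (by ext <;> simp [eP])⟩
  mul_mem' := by
    rintro _ _ ⟨k, p, y, w, rfl | rfl⟩ ⟨k', p', y', w', rfl | rfl⟩
    · refine ⟨k + k', p' + p * tA t (5 * k'), tA t (5 * k) * y' + y, w' + fA t * p * y' + w,
        Or.inl ?_⟩
      ext <;> simp only [eP, mul_d, mul_x, mul_y, mul_z, mul_add, zpow_add, ← tA_coe] <;>
        push_cast <;> ring
    · refine ⟨k + k', p' - p * tA t (5 * k'), tA t (5 * k) * y' + y, w' + fA t * p * y' + w,
        Or.inr ?_⟩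
      ext <;> simp only [eP, eM, mul_d, mul_x, mul_y, mul_z, mul_add, zpow_add, Units.val_neg,
        Units.val_mul, ← tA_coe] <;> push_cast <;> ring
    · obtain ⟨q, hq⟩ := tau t k'
      refine ⟨k + k', p' + p * tA t (5 * k') + uA t * q, -tA t (5 * k) * y' + y,
        w' + (uA t + fA t * p) * y' + w, Or.inr ?_⟩
      ext <;> simp only [eP, eM, mul_d, mul_x, mul_y, mul_z, mul_add, zpow_add, Units.val_neg,
        Units.val_mul, ← tA_coe, hq] <;> push_cast <;> ring
    · obtain ⟨q, hq⟩ := tau t k'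
      refine ⟨k + k', p' - p * tA t (5 * k') - uA t * q, -tA t (5 * k) * y' + y,
        1 + w' + (uA t + fA t * p) * y' + w, Or.inl ?_⟩
      ext <;> simp only [eP, eM, mul_d, mul_x, mul_y, mul_z, mul_add, zpow_add, Units.val_neg,
        Units.val_mul, ← tA_coe, hq] <;> push_cast <;> ring
  inv_mem' := by
    rintro _ ⟨k, p, y, w, rfl | rfl⟩
    · refine ⟨-k, -p * tA t (5 * -k), -tA t (5 * -k) * y, -w + fA t * p * tA t (5 * -k) * y,
        Or.inl ?_⟩
      ext <;> simp only [eP, inv_d, inv_x, inv_y, inv_z, ← zpow_neg, ← mul_neg, ← tA_coe] <;>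
        push_cast <;> ring
    · obtain ⟨q, hq⟩ := tau t (-k)
      refine ⟨-k, p * tA t (5 * -k) + uA t * q, tA t (5 * -k) * y,
        -1 - w - (uA t + fA t * p) * tA t (5 * -k) * y, Or.inr ?_⟩
      ext <;> simp only [eM, inv_d, inv_x, inv_y, inv_z, neg_inv', Units.val_neg, ← zpow_neg,
        ← mul_neg (5 : ℤ), ← tA_coe, hq] <;> push_cast <;> ring

noncomputable def eh (p : A t) : HH t := ⟨eP t 0 p 0 0, 0, p, 0, 0, Or.inl rfl⟩
noncomputable def eg (y : A t) : HH t := ⟨eP t 0 0 y 0, 0, 0, y, 0, Or.inl rfl⟩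
noncomputable def ez (w : A t) : HH t := ⟨eP t 0 0 0 w, 0, 0, 0, w, Or.inl rfl⟩
noncomputable def ea (k : ℤ) : HH t := ⟨eP t k 0 0 0, k, 0, 0, 0, Or.inl rfl⟩
noncomputable def es (p y w : A t) : HH t := ⟨eM t 0 p y w, 0, p, y, w, Or.inr rfl⟩

lemma R1 (p y : A t) : eh t p * eg t y = ez t (fA t * p * y) * eg t y * eh t p := by
  apply Subtype.ext; ext <;> simp [eh, eg, ez, eP]

lemma R2 (w : A t) (g : HH t) : Commute (ez t w) g := by
  apply Subtype.ext; ext <;> simp [ez, eP]; ring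

lemma R3 (w w' : A t) : ez t (w + w') = ez t w * ez t w' := by
  apply Subtype.ext; ext <;> simp [ez, eP]; ring

lemma R3h (w w' : A t) : eh t (w + w') = eh t w * eh t w' := by
  apply Subtype.ext; ext <;> simp [eh, eP]; ring

lemma R3g (w w' : A t) : eg t (w + w') = eg t w * eg t w' := by
  apply Subtype.ext; ext <;> simp [eg, eP]; ring

lemma ez0 : ez t 0 = 1 := by apply Subtype.ext; ext <;> simp [ez, eP]
lemma eh0 : eh t 0 = 1 := by apply Subtype.ext; ext <;> simp [eh, eP]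
lemma eg0 : eg t 0 = 1 := by apply Subtype.ext; ext <;> simp [eg, eP]

lemma ezn (w : A t) : ez t (-w) = (ez t w)⁻¹ := by
  rw [eq_inv_iff_mul_eq_one, ← R3, neg_add_cancel, ez0]
lemma ehn (w : A t) : eh t (-w) = (eh t w)⁻¹ := by
  rw [eq_inv_iff_mul_eq_one, ← R3h, neg_add_cancel, eh0]
lemma egn (w : A t) : eg t (-w) = (eg t w)⁻¹ := by
  rw [eq_inv_iff_mul_eq_one, ← R3g, neg_add_cancel, eg0]

lemma ea_pow (k : ℤ) : ea t 1 ^ k = ea t k := by
  apply Subtype.ext
  have h : ∀ k : ℤ, ((ea t k : HH t) : U) = DD (t ^ (5 * k)) := fun k => by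
    ext <;> simp [ea, eP, DD]
  rw [Subgroup.coe_zpow, h, h, ← map_zpow, ← zpow_mul, mul_one]

lemma R4 (k : ℤ) (y : A t) : ea t k * eg t y = eg t (tA t (5 * k) * y) * ea t k := by
  apply Subtype.ext; ext <;> simp [ea, eg, eP, tA_coe]

lemma R4h (k : ℤ) (p : A t) : eh t p * ea t k = ea t k * eh t (tA t (5 * k) * p) := by
  apply Subtype.ext; ext <;> simp [ea, eh, eP, tA_coe]; ring

lemma R5 (p y w : A t) :
    es t p y w * es t p y w = ez t (1 + 2 * w + (uA t + fA t * p) * y) := by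
  apply Subtype.ext; ext <;> simp [es, ez, eP, eM]
  rw [show ((2 : A t) : ℂ) = 2 from rfl]; ring

lemma R6 (p y w y' : A t) : es t p y w * eg t y' =
    eg t (-y') * ez t ((uA t + fA t * p) * y') * es t p y w := by
  apply Subtype.ext; ext <;> simp [es, ez, eg, eP, eM] <;> ring

lemma decP (k : ℤ) (p y w : A t) : eP t k p y w =
    ((eg t y * ez t w * ea t k * eh t p : HH t) : U) := by
  ext <;> simp [ea, eh, eg, ez, eP]

lemma decM (k : ℤ) (p y w q : A t) (hq : tA t (5 * k) = 1 + fA t * q) : eM t k p y w =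
    ((eg t y * ez t w * es t 0 0 0 * ea t k * eh t (p - uA t * q) : HH t) : U) := by
  have : ((t : ℂ)) ^ (5 * k) = 1 + fA t * q := by
    have := congrArg Subtype.val hq
    simpa [tA_coe] using this
  ext <;> simp [ea, eh, eg, ez, es, eP, eM, this] <;> ring

lemma H_fg : Group.FG (HH t) := by
  classical
  let S : Set (HH t) := {ea t 1, es t 0 0 0} ∪ Set.range (fun i : Fin 5 => eh t (tA t (i : ℕ))) ∪
    Set.range (fun i : Fin 5 => eg t (tA t (i : ℕ)))
  have hS : S.Finite :=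
    ((Set.toFinite _).union (Set.finite_range _)).union (Set.finite_range _)
  refine Group.fg_iff.2 ⟨S, ?_, hS⟩
  set C := Subgroup.closure S
  have ha : ∀ k, ea t k ∈ C := fun k => by
    rw [← ea_pow]; exact C.zpow_mem (Subgroup.subset_closure (by simp [S])) k
  have hs : es t 0 0 0 ∈ C := Subgroup.subset_closure (by simp [S])
  have hh : ∀ p, eh t p ∈ C := fun p => by
    induction p using A_ind5 with
    | h0 => rw [eh0]; exact C.one_mem
    | hadd a b h1 h2 => rw [R3h]; exact C.mul_mem h1 h2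
    | hneg a h1 => rw [ehn]; exact C.inv_mem h1
    | hk k i =>
      have := R4h t k (tA t (i : ℕ))
      rw [← inv_mul_eq_iff_eq_mul] at this
      rw [← this]
      exact C.mul_mem (C.inv_mem (ha k)) (C.mul_mem
        (Subgroup.subset_closure (Or.inl (Or.inr ⟨i, rfl⟩))) (ha k))
  have hg : ∀ p, eg t p ∈ C := fun p => by
    induction p using A_ind5 with
    | h0 => rw [eg0]; exact C.one_mem
    | hadd a b h1 h2 => rw [R3g]; exact C.mul_mem h1 h2
    | hneg a h1 => rw [egn]; exact C.inv_mem h1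
    | hk k i =>
      have := R4 t k (tA t (i : ℕ))
      rw [← mul_inv_eq_iff_eq_mul] at this
      rw [← this]
      exact C.mul_mem (C.mul_mem (ha k) (Subgroup.subset_closure (Or.inr ⟨i, rfl⟩)))
        (C.inv_mem (ha k))
  have hz : ∀ w, ez t w ∈ C := fun w => by
    have h1 : ∀ p, ez t (fA t * p * 1) ∈ C := fun p => by
      have := R1 t p 1
      rw [← mul_inv_eq_iff_eq_mul, ← mul_inv_eq_iff_eq_mul] at this
      rw [← this]
      exact C.mul_mem (C.mul_mem (C.mul_mem (hh _) (hg _)) (C.inv_mem (hh _))) (C.inv_mem (hg _))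
    have h2 : ∀ y, ez t ((uA t + fA t * 0) * y) ∈ C := fun y => by
      have := R6 t 0 0 0 y
      rw [← mul_inv_eq_iff_eq_mul, ← inv_mul_eq_iff_eq_mul] at this
      rw [← this]
      exact C.mul_mem (C.inv_mem (hg _)) (C.mul_mem (C.mul_mem hs (hg _)) (C.inv_mem hs))
    have : w = fA t * w * 1 + (uA t + fA t * 0) * (-(tA t 1 ^ 3 + tA t 1) * w) := by
      linear_combination (-w) * bez t
    rw [this, R3]
    exact C.mul_mem (h1 _) (h2 _)
  rw [eq_top_iff]
  rintro ⟨_, k, p, y, w, rfl | rfl⟩ -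
  · have : (⟨eP t k p y w, k, p, y, w, Or.inl rfl⟩ : HH t) = eg t y * ez t w * ea t k * eh t p :=
      Subtype.ext (decP t k p y w)
    rw [this]
    exact C.mul_mem (C.mul_mem (C.mul_mem (hg _) (hz _)) (ha _)) (hh _)
  · obtain ⟨q, hq⟩ := tau t k
    have : (⟨eM t k p y w, k, p, y, w, Or.inr rfl⟩ : HH t) =
        eg t y * ez t w * es t 0 0 0 * ea t k * eh t (p - uA t * q) :=
      Subtype.ext (decM t k p y w q hq)
    rw [this]
    exact C.mul_mem (C.mul_mem (C.mul_mem (C.mul_mem (hg _) (hz _)) hs) (ha _)) (hh _)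

end Pool.Agent.H.MP_0ed2d6_al
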