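import Pool.Agent.H.MP_0ed2d6_al.A
import Pool.Agent.H.MP_0ed2d6_al.B

set_option autoImplicit false

namespace Pool.Agent.H.MP_0ed2d6_al

open Polynomial

noncomputable def red : ℤ[X] →+* (ZMod 2)[X] := mapRingHom (Int.castRingHom (ZMod 2))

lemma red_f : red (fP ℤ) = fP (ZMod 2) := by simp [red, fP]
lemma red_u : red (uP ℤ) = uP (ZMod 2) := by simp [red, uP]
lemma red_X : red X = X := by simp [red]
lemma two_eq : (2 : (ZMod 2)[X]) = 0 := by
  have : (2 : (ZMod 2)[X]) = C (2 : ZMod 2) := rfl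
  rw [this, show (2 : ZMod 2) = 0 from rfl, C_0]
lemma red_two : red 2 = 0 := by rw [map_ofNat, two_eq]

lemma red_surj : Function.Surjective red :=
  Polynomial.map_surjective _ (ZMod.ringHom_surjective _)

lemma red_ker (P : ℤ[X]) (h : red P = 0) : C (2 : ℤ) ∣ P := by
  rw [C_dvd_iff_dvd_coeff]
  intro i
  have := congrArg (fun q => coeff q i) h
  simp only [red, coe_mapRingHom, coeff_map, eq_intCast, coeff_zero] at this
  exact (ZMod.intCast_zmod_eq_zero_iff_dvd _ 2).1 this

lemma nosol2 (b n : ℕ) (P : (ZMod 2)[X]) : ¬ (uP (ZMod 2) * X ^ b + fP (ZMod 2) * P ∣ X ^ n) := by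
  intro h
  obtain ⟨i, -, v, hv⟩ := (dvd_prime_pow Polynomial.prime_X n).1 h
  obtain ⟨r, hr, hr'⟩ := Polynomial.isUnit_iff.1 v.isUnit
  have h1 : r = 1 := by
    have : ∀ r : ZMod 2, r ≠ 0 → r = 1 := by decide
    exact this r hr.ne_zero
  rw [← hr', h1, C_1, mul_one] at hv
  have hdeg : (fP (ZMod 2)).degree = 4 := by unfold fP; compute_degree!
  have : Nontrivial (AdjoinRoot (fP (ZMod 2))) := AdjoinRoot.nontrivial _ (by rw [hdeg]; decide)
  set ω := AdjoinRoot.root (fP (ZMod 2)) with hω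
  have h0 : AdjoinRoot.mk (fP (ZMod 2)) (fP (ZMod 2)) = 0 := AdjoinRoot.mk_self
  have h2 := congrArg (AdjoinRoot.mk (fP (ZMod 2))) hv
  rw [map_add, map_mul, map_mul, h0, zero_mul, add_zero] at h2
  simp only [uP, map_add, map_pow, AdjoinRoot.mk_X, map_one, ← hω] at h2
  have h3 : ω ^ 4 + ω ^ 3 + ω ^ 2 + ω + 1 = 0 := by
    rw [← h0]
    conv_rhs => enter [2]; unfold fP
    simp only [map_add, map_pow, AdjoinRoot.mk_X, map_one, ← hω]
  have h4 : (2 : AdjoinRoot (fP (ZMod 2))) = 0 := by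
    have := congrArg (AdjoinRoot.mk (fP (ZMod 2))) two_eq
    rwa [map_ofNat, map_zero] at this
  have h5 : ω ^ 5 = 1 := by linear_combination (ω - 1) * h3
  have h6 : (ω + 1) ^ 5 = 1 := by
    have := congrArg (· ^ 5) h2
    simp only [mul_pow, ← pow_mul, mul_comm _ 5] at this
    simpa only [pow_mul, h5, one_pow, mul_one] using this
  have h7 : ω ^ 4 + ω + 1 = 0 := by
    linear_combination h6 - h5 - (2 * ω ^ 4 + 5 * ω ^ 3 + 5 * ω ^ 2 + 2 * ω) * h4
  have h8 : ω ^ 3 + ω ^ 2 = 0 := by linear_combination h3 - h7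
  have h9 : ω + 1 = 0 := by linear_combination ω ^ 3 * h8 - (ω + 1) * h5
  have h10 : (1 : AdjoinRoot (fP (ZMod 2))) = 0 := by
    linear_combination h3 - (ω ^ 3 + ω) * h9
  exact one_ne_zero h10

lemma sol2 (Q : ℤ[X]) (hQ : red Q ≠ 0) :
    ∃ p α β Z : ℤ[X], α * (uP ℤ + fP ℤ * p) + β * (fP ℤ * Q) = 1 + 2 * Z := by
  have hu : Irreducible (uP (ZMod 2)) := by
    have := irreducible_X_sub_C (-1 : ZMod 2)
    rwa [C_neg, sub_neg_eq_add, C_1] at this
  obtain ⟨j, q', hq', e⟩ := WfDvdMonoid.max_power_factor hQ hu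
  have c1 : IsCoprime (uP (ZMod 2)) (fP (ZMod 2)) :=
    ⟨-(X ^ 3 + X), 1, by unfold uP fP; ring⟩
  have c2 : IsCoprime (uP (ZMod 2)) q' := (hu.coprime_iff_not_dvd).2 hq'
  have c3 : IsCoprime (uP (ZMod 2) + fP (ZMod 2) * q') (fP (ZMod 2) * red Q) := by
    rw [e]
    refine IsCoprime.mul_right (c1.add_mul_left_left q') (IsCoprime.mul_right
      (IsCoprime.pow_right ?_) (c2.add_mul_right_left _))
    have := (IsCoprime.mul_right c1 c2).symm.add_mul_left_left 1
    rwa [mul_one, add_comm] at this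
  obtain ⟨a, b, hab⟩ := c3
  obtain ⟨p, rfl⟩ := red_surj q'
  obtain ⟨α, rfl⟩ := red_surj a
  obtain ⟨β, rfl⟩ := red_surj b
  have : red (α * (uP ℤ + fP ℤ * p) + β * (fP ℤ * Q) - 1) = 0 := by
    simp only [map_sub, map_add, map_mul, red_f, red_u, map_one, hab, sub_self]
  obtain ⟨Z, hZ⟩ := red_ker _ this
  refine ⟨p, α, β, Z, ?_⟩
  rw [show (C (2 : ℤ) : ℤ[X]) = 2 from rfl] at hZ
  linear_combination hZ

variable (t : ℂˣ)

lemma aeval_inj (ht : Transcendental ℤ (t : ℂ)) (P : ℤ[X]) (h : aeval (tA t 1) P = 0) : P = 0 := by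
  by_contra hP
  apply ht
  refine ⟨P, hP, ?_⟩
  have := Polynomial.aeval_algHom_apply ((A t).subtype.toIntAlgHom) (tA t 1) P
  rw [h, map_zero] at this
  simpa [tA_coe] using this

lemma nosol (ht : Transcendental ℤ (t : ℂ)) (p y w : A t) :
    1 + 2 * w + (uA t + fA t * p) * y ≠ 0 := by
  intro h
  obtain ⟨W, a, hW⟩ := A_rep t w
  obtain ⟨P, b, hP⟩ := A_rep t p
  obtain ⟨Y, c, hY⟩ := A_rep t y
  have h1 : X ^ (a + b + c) + 2 * W * X ^ (b + c) + (uP ℤ * X ^ b + fP ℤ * P) * (Y * X ^ a) = 0 := by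
    apply aeval_inj t ht
    simp only [map_add, map_mul, map_pow, aeval_X, ← hW, ← hP, ← hY, map_ofNat]
    change _ + _ + (uA t * _ + fA t * _) * _ = 0
    linear_combination (tA t 1) ^ (a + b + c) * h
  have h2 := congrArg red h1
  simp only [map_add, map_mul, map_pow, red_X, red_two, red_u, red_f, zero_mul, add_zero,
    map_zero] at h2
  exact nosol2 b (a + b + c) (red P) ⟨-(red Y * X ^ a), by linear_combination h2⟩

lemma zpow_fin (ht : Transcendental ℤ (t : ℂ)) (k : ℤ) (h : IsOfFinOrder (t ^ k)) : k = 0 := by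
  by_contra hk
  have h1 : IsOfFinOrder t := by
    obtain ⟨m, hm, e⟩ := isOfFinOrder_iff_zpow_eq_one.1 h
    exact isOfFinOrder_iff_zpow_eq_one.2 ⟨k * m, mul_ne_zero hk hm, by rw [zpow_mul, e]⟩
  obtain ⟨n, hn, e⟩ := isOfFinOrder_iff_pow_eq_one.1 h1
  apply ht
  refine ⟨X ^ n - C 1, X_pow_sub_C_ne_zero hn 1, ?_⟩
  have := congrArg Units.val e
  simp only [Units.val_pow_eq_pow_val, Units.val_one] at this
  simp [this]

lemma H_tf (ht : Transcendental ℤ (t : ℂ)) (g : U) (hg : g ∈ HH t) (ho : IsOfFinOrder g) :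
    g = 1 := by
  obtain ⟨k, p, y, w, rfl | rfl⟩ := hg
  · have h1 : IsOfFinOrder (t ^ (5 * k)) := dd.isOfFinOrder ho
    have h2 := zpow_fin t ht _ h1
    exact unip_tf _ (by simp [eP, h2]) ho
  · exfalso
    have h1 : IsOfFinOrder ((-t ^ (5 * k)) ^ 2) := (dd.isOfFinOrder ho).pow
    rw [neg_sq, ← zpow_natCast, ← zpow_mul] at h1
    have h2 := zpow_fin t ht _ h1
    have h3 : k = 0 := by push_cast at h2; omega
    subst h3
    have h4 := congrArg Subtype.val (R5 t p y w)
    have h5 : IsOfFinOrder ((ez t (1 + 2 * w + (uA t + fA t * p) * y) : HH t) : U) := by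
      rw [← h4, Subgroup.coe_mul, ← pow_two]
      exact ho.pow
    have h6 := congrArg U.z (unip_tf _ (by simp [ez, eP]) h5)
    exact nosol t ht p y w (Subtype.ext h6)

lemma LRS.pow {K M : Type*} [Field K] [Ring M] [Algebra K M] {s : ℤ → M} (hs : LRS K s) (n : ℕ) :
    LRS K (s ^ n) := by
  induction n with
  | zero => rw [pow_zero]; exact LRS.const 1
  | succ n ih => rw [pow_succ]; exact ih.mul hs

lemma LRS.lg {K M : Type*} [Field K] [Ring M] [Algebra K M] {s : ℤ → M} (hs : LRS K s) :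
    LRS K (fun k => lg (s k)) :=
  ((LRS.const 2).mul (hs.sub (LRS.const 1))).sub
    ((hs.sub (LRS.const 1)).mul (hs.sub (LRS.const 1)))

theorem main {K V : Type*} [Field K] [AddCommGroup V] [Module K V] [FiniteDimensional K V]
    [IsAlgClosed K] [CharZero K] [Algebra.IsIntegral ℚ K] (h3 : Module.finrank K V = 3)
    (ψ : HH t →* (Module.End K V)ˣ) (htf : ∀ g, IsOfFinOrder (ψ g) → ψ g = 1) :
    ψ (ez t (fA t)) = 1 := by
  let ζ : A t → (Module.End K V)ˣ := fun r => ψ (ez t (fA t * r))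
  have ζadd : ∀ r r', ζ (r + r') = ζ r * ζ r' := fun r r' => by
    simp only [ζ, mul_add, R3, map_mul]
  have ζc : ∀ r g, Commute (ζ r) (ψ g) := fun r g => (R2 t _ g).map ψ
  have nil : ∀ r, IsNilpotent (((ζ r : Module.End K V)) ^ 6 - 1) := fun r => by
    have := quasi_unip (ζ r : Module.End K V) (ψ (eh t r)) (ψ (eg t 1)) (Units.isUnit _)
      (Units.isUnit _) (ζc r _).units_val (ζc r _).units_val (by
        rw [← Units.val_mul, ← map_mul, R1, map_mul, map_mul, mul_one]; rfl)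
    rwa [h3] at this
  let Λ : A t →+ Module.End K V := AddMonoidHom.mk' (fun r => lg ((ζ r : Module.End K V) ^ 6))
    (fun r r' => by
      have c : Commute (ζ r : Module.End K V) (ζ r') := (ζc r _).units_val
      rw [ζadd, Units.val_mul, c.mul_pow, lg_mul h3 _ _ (nil r) (nil r') (c.pow_pow 6 6)])
  have Λ0 : ∀ r, Λ r = 0 → ζ r = 1 := fun r h => by
    have := lg_eq_zero h3 _ (nil r) h
    apply htf
    exact isOfFinOrder_iff_pow_eq_one.2 ⟨6, by norm_num, Units.ext (by simpa using this)⟩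
  let Θ : A t →+ (ℤ → Module.End K V) := AddMonoidHom.mk' (fun r k => Λ (tA t (5 * k) * r))
    (fun r r' => by funext k; simp only [mul_add, map_add, Pi.add_apply])
  have lrs : ∀ r, LRS K (Θ r) := fun r => by
    suffices hh : LRS K (fun k : ℤ => (ζ (tA t (5 * k) * r) : Module.End K V)) by
      have h5 := (hh.pow 6).lg
      have h6 : Θ r = fun k => lg (((fun k : ℤ => (ζ (tA t (5 * k) * r) : Module.End K V)) ^ 6) k) := by
        funext k
        rw [Pi.pow_apply]
        rfl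
      rw [h6]
      exact h5
    set a := ψ (ea t 1)
    have e : (fun k : ℤ => (ζ (tA t (5 * k) * r) : Module.End K V)) =
        (fun _ => (ψ (eh t r) : Module.End K V)) *
        ((fun k : ℤ => ((a ^ k : (Module.End K V)ˣ) : Module.End K V)) *
          (fun _ => (ψ (eg t 1) : Module.End K V)) *
          (fun k : ℤ => ((a⁻¹ ^ k : (Module.End K V)ˣ) : Module.End K V))) *
        (fun _ => (ψ (eh t r)⁻¹ : Module.End K V)) *
        ((fun k : ℤ => ((a ^ k : (Module.End K V)ˣ) : Module.End K V)) *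
          (fun _ => (ψ (eg t 1)⁻¹ : Module.End K V)) *
          (fun k : ℤ => ((a⁻¹ ^ k : (Module.End K V)ˣ) : Module.End K V))) := by
      funext k
      simp only [Pi.mul_apply, ← Units.val_mul, a, ← map_inv, ← map_zpow, ← map_mul, inv_zpow,
        ea_pow, ζ]
      congr 2
      have h1 := R4 t k 1
      rw [← mul_inv_eq_iff_eq_mul, mul_one] at h1
      have h2 := R1 t r (tA t (5 * k))
      rw [← mul_inv_eq_iff_eq_mul, ← mul_inv_eq_iff_eq_mul] at h2
      rw [show fA t * (tA t (5 * k) * r) = fA t * r * tA t (5 * k) by ring, ← h2, ← h1]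
      group
    rw [e]
    exact (((LRS.const _).mul (((LRS.zpow _).mul (LRS.const _)).mul (LRS.zpow _))).mul
      (LRS.const _)).mul (((LRS.zpow _).mul (LRS.const _)).mul (LRS.zpow _))
  have Θs : ∀ (f : ℤ[X]) (r : A t), Θ (aeval (tA t 5) f * r) =
      aeval (sh K (Module.End K V)).toLinearMap f (Θ r) := by
    intro f r
    induction f using Polynomial.induction_on' with
    | add p q hp hq => simp only [map_add, add_mul, hp, hq, LinearMap.add_apply]
    | monomial n c =>
      rw [aeval_monomial, aeval_monomial, Module.End.mul_apply, eq_intCast, eq_intCast,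
        Module.End.intCast_apply, mul_assoc, ← zsmul_eq_mul, map_zsmul]
      congr 1
      induction n with
      | zero => simp
      | succ n ih =>
        rw [pow_succ', pow_succ', Module.End.mul_apply, ← ih]
        funext k
        change Λ _ = Λ (tA t (5 * (k + 1)) * _)
        congr 1
        rw [mul_add, tA_add, mul_one]; ring
  choose f hf0 hf using fun i : Fin 5 => (lrs (tA t (i : ℕ))).exists_poly
  let F : ℤ[X] := ∏ i, f i
  have hF : F ≠ 0 := Finset.prod_ne_zero_iff.2 fun i _ => hf0 i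
  have hF1 : ∀ r, Λ (aeval (tA t 5) F * r) = 0 := fun r => by
    induction r using A_ind5 with
    | h0 => simp
    | hadd a b ha hb => rw [mul_add, map_add, ha, hb, add_zero]
    | hneg a ha => rw [mul_neg, map_neg, ha, neg_zero]
    | hk k i =>
      obtain ⟨g, hg⟩ : f i ∣ F := Finset.dvd_prod_of_mem f (Finset.mem_univ i)
      have := Θs F (tA t (i : ℕ))
      rw [hg, mul_comm (f i), map_mul (aeval (sh K (Module.End K V)).toLinearMap),
        Module.End.mul_apply, hf, map_zero, mul_comm g, ← hg] at this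
      have h2 : Λ (tA t (5 * k) * (aeval (tA t 5) F * tA t (i : ℕ))) = 0 := congrFun this k
      rw [← h2]; congr 1; ring
  let Q0 : ℤ[X] := expand ℤ 5 F
  have hQ0 : Q0 ≠ 0 := (expand_ne_zero (by norm_num)).2 hF
  have hQ1 : aeval (tA t 1) Q0 = aeval (tA t 5) F := by
    have := tA_nat t 1 5
    simp only [Nat.cast_ofNat, mul_one] at this
    simp only [Q0, expand_aeval, this]
  let Q := Q0.primPart
  have hQ2 : ∀ r, ζ (aeval (tA t 1) Q * r) = 1 := fun r => by
    apply Λ0
    have h1 := hF1 r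
    rw [← hQ1, Q0.eq_C_content_mul_primPart, map_mul (aeval (tA t 1)), aeval_C, eq_intCast, mul_assoc,
      ← zsmul_eq_mul, map_zsmul, ← Int.cast_smul_eq_zsmul K] at h1
    refine (smul_eq_zero.1 h1).resolve_left ?_
    exact_mod_cast fun h => hQ0 (content_eq_zero_iff.1 h)
  have hQ3 : red Q ≠ 0 := fun h => by
    have := Q0.isPrimitive_primPart 2 (red_ker _ h)
    rw [Int.isUnit_iff] at this
    omega
  obtain ⟨p, α, β, Z, e⟩ := sol2 Q hQ3
  have e' := congrArg (aeval (tA t 1)) e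
  simp only [map_add, map_mul, map_one, map_ofNat] at e'
  change _ * (uA t + fA t * _) + _ * (fA t * _) = _ at e'
  set s := es t (aeval (tA t 1) p) (aeval (tA t 1) α) (-1 - aeval (tA t 1) Z) with hs
  have s1 : ψ s = 1 := by
    apply htf
    refine isOfFinOrder_iff_pow_eq_one.2 ⟨2, by norm_num, ?_⟩
    rw [pow_two, ← map_mul, hs, R5, ← hQ2 (-aeval (tA t 1) β)]
    simp only [ζ]
    congr 2
    linear_combination e'
  have s2 := congrArg ψ (R6 t (aeval (tA t 1) p) (aeval (tA t 1) α) (-1 - aeval (tA t 1) Z) 1)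
  rw [← hs, map_mul, map_mul, map_mul, s1, one_mul, mul_one, egn, map_inv,
    eq_inv_mul_iff_mul_eq, ← map_mul, ← R3g] at s2
  have s3 := congrArg ψ (R1 t 1 (1 + 1))
  rw [map_mul, map_mul, map_mul, s2, mul_assoc, ((R2 t _ (eh t 1)).map ψ).eq] at s3
  have s4 := right_eq_mul.1 s3
  rw [mul_one, mul_add, mul_one, R3, map_mul] at s4
  apply htf
  refine isOfFinOrder_iff_pow_eq_one.2 ⟨2, by norm_num, ?_⟩
  rw [pow_two]
  exact s4

end Pool.Agent.H.MP_0ed2d6_al
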